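import Pool.Agent.Q284.NP.Stm
import Pool.Agent.Q284.PAC.Gal

/-!
# Project NP, job GAL
-/

set_option autoImplicit false

namespace Pool.Agent.Q94.NP

open Pool.Agent.Q284.NP Polynomial

/-- monic irreducible polynomials of every positive degree -/
theorem exists_irr (p : ℕ) [Fact p.Prime] (n : ℕ) (hn : n ≠ 0) :
    ∃ q : Polynomial (ZMod p), Irreducible q ∧ q.Monic ∧ q.natDegree = n := by
  obtain ⟨α, hα⟩ := Field.exists_primitive_element (ZMod p) (GaloisField p n)
  have hint : IsIntegral (ZMod p) α := Algebra.IsIntegral.isIntegral α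
  refine ⟨minpoly (ZMod p) α, minpoly.irreducible hint, minpoly.monic hint, ?_⟩
  rw [← IntermediateField.adjoin.finrank hint, hα, IntermediateField.finrank_top', GaloisField.finrank p hn]

/-- a prime times a non-multiple of it is not a square -/
theorem not_square_mul {R : Type} [CommRing R] [IsDomain R] {q h : R} (hq : Prime q) (hh : ¬ q ∣ h) :
    ¬ IsSquare (q * h) := by
  rintro ⟨r, hr⟩
  have h1 : q ∣ r := by
    have : q ∣ r * r := ⟨h, hr.symm⟩
    rcases hq.dvd_or_dvd this with h | h <;> exact h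
  obtain ⟨s, rfl⟩ := h1
  apply hh
  refine ⟨s * s, ?_⟩
  apply mul_left_cancel₀ hq.ne_zero
  rw [hr]
  ring

theorem not_square_irr (p : ℕ) [Fact p.Prime] {n : ℕ} (q : Fin n → Polynomial (ZMod p)) (hq : ∀ i, Irreducible (q i))
    (hm : ∀ i, (q i).Monic) (hinj : Function.Injective q) (T₁ T₂ : Finset (Fin n)) (h : T₁ ≠ T₂) :
    ¬ IsSquare ((∏ i ∈ T₁, q i) * ∏ i ∈ T₂, q i) := by
  classical
  have hpr : ∀ i, Prime (q i) := fun i => (hq i).prime
  have hnd : ∀ i j, i ≠ j → ¬ q i ∣ q j := by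
    intro i j hij hdvd
    have h1 : Associated (q i) (q j) := (hq i).associated_of_dvd (hq j) hdvd
    exact hij (hinj (eq_of_monic_of_associated (hm i) (hm j) h1))
  have key : ∀ (S₁ S₂ : Finset (Fin n)) (i₀ : Fin n), i₀ ∈ S₁ → i₀ ∉ S₂ →
      ¬ IsSquare ((∏ i ∈ S₁, q i) * ∏ i ∈ S₂, q i) := by
    intro S₁ S₂ i₀ h1 h2
    rw [← Finset.mul_prod_erase S₁ q h1, mul_assoc]
    refine not_square_mul (hpr i₀) ?_
    intro hd
    rcases (hpr i₀).dvd_or_dvd hd with h3 | h3
    · obtain ⟨j, hj, hj2⟩ := (hpr i₀).exists_mem_finset_dvd h3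
      exact hnd i₀ j (Finset.ne_of_mem_erase hj).symm hj2
    · obtain ⟨j, hj, hj2⟩ := (hpr i₀).exists_mem_finset_dvd h3
      exact hnd i₀ j (fun hij => h2 (hij ▸ hj)) hj2
  obtain ⟨i₀, hi₀⟩ : ∃ i, ¬ (i ∈ T₁ ↔ i ∈ T₂) := by
    by_contra hcon
    push Not at hcon
    exact h (Finset.ext hcon)
  by_cases ha : i₀ ∈ T₁ <;> by_cases hb : i₀ ∈ T₂
  · exact absurd ⟨fun _ => hb, fun _ => ha⟩ hi₀
  · exact key T₁ T₂ i₀ ha hb
  · rw [mul_comm]
    exact key T₂ T₁ i₀ hb ha
  · exact absurd ⟨fun h' => absurd h' ha, fun h' => absurd h' hb⟩ hi₀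

theorem gal : S_GAL := by
  intro p _ hp2 K _ φ hφ S hS
  classical
  have hp : p.Prime := Fact.out
  haveI : CharP K p := by
    have h1 : Function.Injective (φ.comp (C : ZMod p →+* Polynomial (ZMod p))) := RingHom.injective _
    exact charP_of_injective_ringHom h1 p
  haveI : NeZero (2 : K) := by
    refine ⟨fun h2 => ?_⟩
    have h3 : ((2 : ℕ) : K) = 0 := by exact_mod_cast h2
    rw [CharP.cast_eq_zero_iff K p] at h3
    exact hp2 ((Nat.prime_dvd_prime_iff_eq hp Nat.prime_two).1 h3)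
  have hq0 : ∀ i : Fin (S.card + 1), ∃ q : Polynomial (ZMod p), Irreducible q ∧ q.Monic ∧ q.natDegree = i + 1 := fun i =>
    exists_irr p (i + 1) (Nat.succ_ne_zero _)
  choose q hq hm hdeg using hq0
  have hinj : Function.Injective q := by
    intro i j hij
    have h1 : (i : ℕ) + 1 = j + 1 := by rw [← hdeg i, ← hdeg j, hij]
    exact Fin.ext (by omega)
  let a := algebraMap K (SeparableClosure K)
  haveI : NeZero (2 : SeparableClosure K) := by
    refine ⟨fun h2 => NeZero.ne (2 : K) ?_⟩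
    apply a.injective
    rw [map_ofNat, h2, map_zero]
  have hu : ∀ i : Fin (S.card + 1), ∃ u : SeparableClosure K, u ^ 2 = a (φ (q i)) := fun i =>
    IsSepClosed.exists_pow_nat_eq _ 2
  choose u hu using hu
  let w : Finset (Fin (S.card + 1)) → SeparableClosure K := fun T => ∏ i ∈ T, u i
  have hw : ∀ T, w T ^ 2 = a (φ (∏ i ∈ T, q i)) := by
    intro T
    simp only [w]
    rw [← Finset.prod_pow, map_prod, map_prod]
    exact Finset.prod_congr rfl fun i _ => hu i
  have hsign : ∀ (σ : SeparableClosure K ≃ₐ[K] SeparableClosure K) T, σ (w T) = w T ∨ σ (w T) = - w T := by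
    intro σ T
    have h1 : (σ (w T)) ^ 2 = w T ^ 2 := by rw [← map_pow, hw]; exact σ.commutes _
    exact sq_eq_sq_iff_eq_or_eq_neg.1 h1
  let χ : Finset (Fin (S.card + 1)) → (S → Bool) := fun T σ => decide (σ.1 (w T) = w T)
  have hcard : Fintype.card (S → Bool) < Fintype.card (Finset (Fin (S.card + 1))) := by
    rw [Fintype.card_fun, Fintype.card_finset, Fintype.card_bool, Fintype.card_fin, Fintype.card_coe]
    exact Nat.pow_lt_pow_right (by norm_num) (Nat.lt_succ_self _)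
  obtain ⟨T₁, T₂, hT, hχ⟩ := Fintype.exists_ne_map_eq_of_card_lt χ hcard
  have hfix : ∀ σ ∈ (S : Set (SeparableClosure K ≃ₐ[K] SeparableClosure K)), σ (w T₁ * w T₂) = w T₁ * w T₂ := by
    intro σ hσ
    have h1 : decide (σ (w T₁) = w T₁) = decide (σ (w T₂) = w T₂) := congrFun hχ ⟨σ, hσ⟩
    rw [decide_eq_decide] at h1
    rw [map_mul]
    rcases hsign σ (T₁) with h2 | h2
    · rw [h2, h1.1 h2]
    · rcases hsign σ T₂ with h3 | h3
      · rw [h3, h1.2 h3]
      · rw [h2, h3, neg_mul_neg]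
  obtain ⟨d, hd⟩ := Pool.Agent.Q284.PAC.fixed_of_dense K _ hS _ hfix
  apply not_square_irr p q hq hm hinj T₁ T₂ hT
  apply hφ
  refine ⟨d, ?_⟩
  apply a.injective
  change a (φ _) = a (d * d)
  rw [map_mul a d d]
  change a (φ _) = algebraMap K (SeparableClosure K) d * algebraMap K (SeparableClosure K) d
  rw [hd, map_mul φ, map_mul a, ← hw, ← hw]
  ring

end Pool.Agent.Q94.NP
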